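import Pool.Agent.Lib.MP_d03834_ag.Core.All459
import Pool.Agent.Lib.MP_d03834_ag.Core.Proj

set_option autoImplicit false

/-- The conjecture for more than nine general points of the projective plane. -/
theorem Pool.Agent.Results.MP_d03834_ag.Full.result :
    ∀ n : ℕ, 9 < n → ∀ m : ℕ, 1 ≤ m →
      ∃ (Φ : MvPolynomial (Fin n × Fin 3) ℂ) (e : Fin n → ℕ),
        MvPolynomial.IsWeightedHomogeneous
          (fun ij : Fin n × Fin 3 => (Pi.single ij.1 1 : Fin n → ℕ)) Φ e ∧
        (∃ p : Fin n → Projectivization ℂ (Fin 3 → ℂ),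
          MvPolynomial.eval (fun ij : Fin n × Fin 3 => (p ij.1).rep ij.2) Φ ≠ 0) ∧
        ∀ p : Fin n → Projectivization ℂ (Fin 3 → ℂ),
          MvPolynomial.eval (fun ij : Fin n × Fin 3 => (p ij.1).rep ij.2) Φ ≠ 0 →
          ∀ d : ℕ,
            (Module.finrank ℂ
              ↥(MvPolynomial.homogeneousSubmodule (Fin 3) ℂ d ⊓
                Submodule.restrictScalars ℂ
                  (⨅ i : Fin n,
                    Ideal.span {G : MvPolynomial (Fin 3) ℂ |
                      (∃ k, G.IsHomogeneous k) ∧ MvPolynomial.eval (p i).rep G = 0} ^ m)) : ℚ) =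
            max 0 (((d : ℚ) + 1) * (d + 2) / 2 - n * ((m : ℚ) * (m + 1) / 2)) :=
  fun _ hn _ hm => Pool.Agent.Lib.MP_d03834_ag.Core.Proj.proj_of
    (Pool.Agent.Lib.MP_d03834_ag.Core.shghAll hn hm)
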